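import Pool.Agent.Helper15.RA.GoalsH

/-!
# RA-NI: the homomorphisms iota are injective and preserve the length
-/

set_option autoImplicit false

noncomputable section

namespace Pool.Agent.Helper86.RA

open Pool.Agent.Helper15.RA

section

variable {I V W : Type} [Group W] {M : CoxeterMatrix I} (cs : CoxeterSystem M W) (π : I → V)
  (v : V)

theorem iota_simple (i : {i // π i = v}) :
    iota cs π v ((sub M π v).toCoxeterSystem.simple i) = cs.simple i.1 := by
  unfold iota
  exact CoxeterSystem.lift_apply_simple _ (liftable cs π v) i

open Classical in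
/-- the retraction on the simple reflections -/
def rf (M : CoxeterMatrix I) (π : I → V) (v : V) (i : I) : (sub M π v).Group :=
  if h : π i = v then (sub M π v).toCoxeterSystem.simple ⟨i, h⟩ else 1

theorem rf_pos (i : I) (h : π i = v) :
    rf M π v i = (sub M π v).toCoxeterSystem.simple ⟨i, h⟩ := by
  unfold rf
  rw [dif_pos h]

theorem rf_neg (i : I) (h : ¬ π i = v) : rf M π v i = 1 := by
  unfold rf
  rw [dif_neg h]

theorem rf_liftable {Γ : SimpleGraph V} (hM : IsGraphProd M π Γ) :
    M.IsLiftable (rf M π v) := by
  intro i j
  by_cases hi : π i = v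
  · by_cases hj : π j = v
    · rw [rf_pos π v i hi, rf_pos π v j hj]
      exact (sub M π v).toCoxeterSystem.simple_mul_simple_pow ⟨i, hi⟩ ⟨j, hj⟩
    · rw [rf_pos π v i hi, rf_neg π v j hj, mul_one]
      have hne : π i ≠ π j := fun h => hj (h ▸ hi)
      by_cases ha : Γ.Adj (π i) (π j)
      · rw [(hM i j hne).1 ha]
        exact CoxeterSystem.simple_sq _ _
      · rw [(hM i j hne).2 ha, pow_zero]
  · by_cases hj : π j = v
    · rw [rf_neg π v i hi, rf_pos π v j hj, one_mul]
      have hne : π i ≠ π j := fun h => hi (h.trans hj)
      by_cases ha : Γ.Adj (π i) (π j)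
      · rw [(hM i j hne).1 ha]
        exact CoxeterSystem.simple_sq _ _
      · rw [(hM i j hne).2 ha, pow_zero]
    · rw [rf_neg π v i hi, rf_neg π v j hj, one_mul, one_pow]

/-- the retraction -/
def retr {Γ : SimpleGraph V} (hM : IsGraphProd M π Γ) : W →* (sub M π v).Group :=
  cs.lift ⟨rf M π v, rf_liftable π v hM⟩

theorem retr_simple {Γ : SimpleGraph V} (hM : IsGraphProd M π Γ) (i : I) :
    retr cs π v hM (cs.simple i) = rf M π v i := by
  unfold retr
  exact CoxeterSystem.lift_apply_simple _ (rf_liftable π v hM) i

theorem retr_iota {Γ : SimpleGraph V} (hM : IsGraphProd M π Γ) (g : (sub M π v).Group) :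
    retr cs π v hM (iota cs π v g) = g := by
  have h : (retr cs π v hM).comp (iota cs π v) = MonoidHom.id _ := by
    apply (sub M π v).toCoxeterSystem.ext_simple
    intro i
    rw [MonoidHom.comp_apply, iota_simple, retr_simple, rf_pos π v i.1 i.2]
    rfl
  exact DFunLike.congr_fun h g

theorem len_iota_le (g : (sub M π v).Group) :
    cs.length (iota cs π v g) ≤ (sub M π v).toCoxeterSystem.length g := by
  have key : ∀ ω : List {i // π i = v},
      cs.length (iota cs π v ((sub M π v).toCoxeterSystem.wordProd ω)) ≤ ω.length := by
    intro ω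
    induction ω with
    | nil => simp
    | cons i ω ih =>
        rw [CoxeterSystem.wordProd_cons, map_mul, iota_simple]
        refine (cs.length_mul_le _ _).trans ?_
        rw [cs.length_simple, List.length_cons]
        omega
  obtain ⟨ω, hω, rfl⟩ := (sub M π v).toCoxeterSystem.exists_isReduced g
  rw [hω.eq]
  exact key ω

theorem len_retr_le {Γ : SimpleGraph V} (hM : IsGraphProd M π Γ) (w : W) :
    (sub M π v).toCoxeterSystem.length (retr cs π v hM w) ≤ cs.length w := by
  have key : ∀ ω : List I,
      (sub M π v).toCoxeterSystem.length (retr cs π v hM (cs.wordProd ω)) ≤ ω.length := by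
    intro ω
    induction ω with
    | nil => simp
    | cons i ω ih =>
        rw [CoxeterSystem.wordProd_cons, map_mul, retr_simple]
        refine ((sub M π v).toCoxeterSystem.length_mul_le _ _).trans ?_
        rw [List.length_cons]
        by_cases hi : π i = v
        · rw [rf_pos π v i hi, CoxeterSystem.length_simple]
          omega
        · rw [rf_neg π v i hi, CoxeterSystem.length_one]
          omega
  obtain ⟨ω, hω, rfl⟩ := cs.exists_isReduced w
  rw [hω.eq]
  exact key ω

end

theorem h_ni : N_I := by
  intro I V W _ M cs π Γ hM v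
  have hlen : ∀ g, cs.length (iota cs π v g) = (sub M π v).toCoxeterSystem.length g := by
    intro g
    refine le_antisymm (len_iota_le cs π v g) ?_
    have h := len_retr_le cs π v hM (iota cs π v g)
    rwa [retr_iota] at h
  have hinj : Function.Injective (iota cs π v) :=
    Function.LeftInverse.injective (g := retr cs π v hM) (retr_iota cs π v hM)
  refine ⟨hlen, hinj, fun L hL => ⟨?_, ?_⟩⟩
  · intro w hw
    apply hL.pos
    intro h
    apply hw
    apply hinj
    rw [h, map_one]
  · intro w w' h
    have h1 : cs.length (iota cs π v w * iota cs π v w') =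
        cs.length (iota cs π v w) + cs.length (iota cs π v w') := by
      rw [← map_mul, hlen, hlen, hlen, h]
    have h2 := hL.add _ _ h1
    rw [← map_mul] at h2
    exact h2

end Pool.Agent.Helper86.RA
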